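import Pool.Agent.H84.SS.Targets

/-!
# The first pair bound (row M_B12)
-/

set_option autoImplicit false

open MeasureTheory Filter Topology Set ProbabilityTheory
open scoped ENNReal ComplexConjugate

universe u v

namespace Pool.Agent.H10.SS

open Pool.Agent.H84.SS
open Pool.Agent.H85.RT (avg GoodWeight Good)
open Pool.Agent.H94.RTB (LGood PD)

section tools

variable {X : Type u} [MeasurableSpace X]

theorem meas_var {G : ℕ → X → ℂ} (hG : ∀ n, Measurable (G n)) {N : X → ℕ} (hN : Measurable N) :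
    Measurable fun x => (∑ n ∈ Finset.Icc 1 (N x), G n x) / (N x : ℂ) := by
  have h1 : ∀ k : ℕ, Measurable fun x => (∑ n ∈ Finset.Icc 1 k, G n x) / (k : ℂ) := fun k =>
    (Finset.measurable_sum _ fun n _ => hG n).div_const _
  have h2 : Measurable fun p : ℕ × X => (∑ n ∈ Finset.Icc 1 p.1, G n p.2) / (p.1 : ℂ) :=
    measurable_from_prod_countable_right fun k => h1 k
  exact h2.comp (hN.prodMk measurable_id)

theorem bound_avg {G : ℕ → ℂ} {C : ℝ} (hC : 0 ≤ C) (hG : ∀ n, ‖G n‖ ≤ C) (M : ℕ) :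
    ‖(∑ n ∈ Finset.Icc 1 M, G n) / (M : ℂ)‖ ≤ C := by
  rw [norm_div, Complex.norm_natCast]
  rcases Nat.eq_zero_or_pos M with h | h
  · rw [h]
    simp [hC]
  · rw [div_le_iff₀ (by exact_mod_cast h)]
    calc ‖∑ n ∈ Finset.Icc 1 M, G n‖ ≤ ∑ n ∈ Finset.Icc 1 M, ‖G n‖ := norm_sum_le _ _
      _ ≤ ∑ _n ∈ Finset.Icc 1 M, C := Finset.sum_le_sum fun n _ => hG n
      _ = C * M := by
          rw [Finset.sum_const, Nat.card_Icc, nsmul_eq_mul, Nat.add_sub_cancel]
          ring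

theorem meas_iter (T : X ≃ᵐ X) {f : X → ℂ} (hf : Measurable f) (n : ℕ) :
    Measurable fun x => f (T^[n] x) := hf.comp (T.measurable.iterate n)

theorem ph_int {μ : Measure X} [IsProbabilityMeasure μ] {T : X ≃ᵐ X} {f g : X → ℂ} {w : ℕ → ℂ}
    {B : ℝ} {N : ℕ → X → ℕ} {θ : ℕ → X → ℂ} (hf : Measurable f) (hg : Measurable g)
    (hf1 : ∀ x, ‖f x‖ ≤ 1) (hg1 : ∀ x, ‖g x‖ ≤ 1) (hw : ∀ n, ‖w n‖ ≤ B) (hR : RTimes N θ)
    (i a b c : ℕ) : Integrable (ph T f g w (N i) (θ i) a b c) μ := by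
  have hB : 0 ≤ B := (norm_nonneg _).trans (hw 0)
  have hm : Measurable (ph T f g w (N i) (θ i) a b c) := by
    unfold ph
    refine (hR.measθ i).mul (meas_var (G := fun n x => w (n + a) * f (T^[n + b] x) *
      g (T.symm^[n + c] x)) (fun n => ?_) (hR.measN i))
    exact ((meas_iter T hf _).const_mul _).mul (meas_iter T.symm hg _)
  refine Integrable.of_bound hm.aestronglyMeasurable B (Eventually.of_forall fun x => ?_)
  unfold ph
  rw [norm_mul]
  have h1 : ‖(∑ n ∈ Finset.Icc 1 (N i x), w (n + a) * f (T^[n + b] x) * g (T.symm^[n + c] x)) /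
      (N i x : ℂ)‖ ≤ B := by
    refine bound_avg hB (fun n => ?_) _
    rw [norm_mul, norm_mul]
    calc ‖w (n + a)‖ * ‖f (T^[n + b] x)‖ * ‖g (T.symm^[n + c] x)‖ ≤ B * 1 * 1 := by
          gcongr
          · exact hw _
          · exact hf1 _
          · exact hg1 _
      _ = B := by ring
  calc ‖θ i x‖ * _ ≤ 1 * B := mul_le_mul (hR.bddθ i x) h1 (norm_nonneg _) zero_le_one
    _ = B := one_mul B

theorem ph_sum (T : X ≃ᵐ X) (f g : X → ℂ) (w : ℕ → ℂ) (N : X → ℕ) (θ : X → ℂ) (c : ℕ)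
    (s : Finset (ℕ × ℕ)) (u : ℕ × ℕ → ℂ) (x : X) :
    ∑ j ∈ s, u j * ph T f g w N θ j.1 j.2 c x =
      θ x * ((∑ n ∈ Finset.Icc 1 (N x), (∑ j ∈ s, u j * (w (n + j.1) * f (T^[n + j.2] x))) *
        g (T.symm^[n + c] x)) / (N x : ℂ)) := by
  unfold ph
  have h1 : ∑ n ∈ Finset.Icc 1 (N x), (∑ j ∈ s, u j * (w (n + j.1) * f (T^[n + j.2] x))) *
        g (T.symm^[n + c] x) = ∑ j ∈ s, u j * ∑ n ∈ Finset.Icc 1 (N x),
          w (n + j.1) * f (T^[n + j.2] x) * g (T.symm^[n + c] x) := by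
    simp only [Finset.sum_mul, Finset.mul_sum]
    rw [Finset.sum_comm]
    exact Finset.sum_congr rfl fun j _ => Finset.sum_congr rfl fun n _ => by ring
  rw [h1, Finset.sum_div, Finset.mul_sum]
  exact Finset.sum_congr rfl fun j _ => by ring

end tools

theorem pf_B12 (h1 : M_CSR.{u}) (h2 : M_SQA.{u}) (h3 : M_SQB.{u}) (h4 : M_AEI.{u})
    (h5 : M_CTS.{u}) (h6 : M_PFE.{u}) : M_B12.{u} := by
  intro X _ μ _ T f g w p B N θ R hT hf hg hf1 hg1 hw hR hlim
  have hB : 0 ≤ B := (norm_nonneg _).trans (hw.bdd 0)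
  have hinv : MeasurableSpace.invariants T ≤ (inferInstance : MeasurableSpace X) :=
    MeasurableSpace.invariants_le T
  -- one family of coefficients
  have hone : ∀ (c : ℕ) (s : Finset (ℕ × ℕ)) (u : ℕ × ℕ → ℂ),
      ∀ᵐ x ∂μ, ‖∑ i ∈ s, u i * R i.1 i.2 c x‖ ^ 2 ≤ (∑ i ∈ s, ∑ j ∈ s, u i * conj (u j) *
        p ((i.1 : ℤ) - j.1) * cf μ T f i.2 j.2 x).re := by
    intro c s u
    have hcfm : ∀ b b' : ℕ, StronglyMeasurable[MeasurableSpace.invariants T] (cf μ T f b b') :=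
      fun b b' => stronglyMeasurable_condExp
    have hcfi : ∀ b b' : ℕ, Integrable (cf μ T f b b') μ := fun b b' => integrable_condExp
    refine h4 X (MeasurableSpace.invariants T) μ hinv (fun x => ∑ i ∈ s, u i * R i.1 i.2 c x)
      (fun x => (∑ i ∈ s, ∑ j ∈ s, u i * conj (u j) * p ((i.1 : ℤ) - j.1) *
        cf μ T f i.2 j.2 x).re) ?_ ?_ ?_ ?_ ?_
    · exact Finset.stronglyMeasurable_fun_sum _ fun i _ =>
        (hlim.meas i.1 i.2 c).const_mul (u i)
    · refine Complex.continuous_re.comp_stronglyMeasurable ?_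
      exact Finset.stronglyMeasurable_fun_sum _ fun i _ =>
        Finset.stronglyMeasurable_fun_sum _ fun j _ => (hcfm i.2 j.2).const_mul _
    · exact integrable_finsetSum _ fun i _ => (hlim.int i.1 i.2 c).const_mul (u i)
    · have h9 : Integrable (fun x => ∑ i ∈ s, ∑ j ∈ s, u i * conj (u j) *
          p ((i.1 : ℤ) - j.1) * cf μ T f i.2 j.2 x) μ :=
        integrable_finsetSum _ fun i _ =>
          integrable_finsetSum _ fun j _ => (hcfi i.2 j.2).const_mul _
      exact h9.re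
    · intro Q hQ
      have hQ' : MeasurableSet Q := hinv Q hQ
      set y : ℕ → X → ℂ := fun n x => ∑ j ∈ s, u j * (w (n + j.1) * f (T^[n + j.2] x)) with hy
      set z : ℕ → X → ℂ := fun n x => g (T.symm^[n + c] x) with hz
      have hym : ∀ n, Measurable (y n) := fun n =>
        Finset.measurable_sum _ fun j _ => ((meas_iter T hf _).const_mul _).const_mul _
      have hzm : ∀ n, Measurable (z n) := fun n => meas_iter T.symm hg _
      have hyb : ∀ n x, ‖y n x‖ ≤ ∑ j ∈ s, ‖u j‖ * B := by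
        intro n x
        refine (norm_sum_le _ _).trans (Finset.sum_le_sum fun j _ => ?_)
        rw [norm_mul, norm_mul]
        refine mul_le_mul_of_nonneg_left ?_ (norm_nonneg _)
        calc ‖w (n + j.1)‖ * ‖f (T^[n + j.2] x)‖ ≤ B * 1 :=
              mul_le_mul (hw.bdd _) (hf1 _) (norm_nonneg _) hB
          _ = B := mul_one B
      have hl : Tendsto (fun i => ∫ x in Q, θ i x * ((∑ n ∈ Finset.Icc 1 (N i x),
          y n x * z n x) / (N i x : ℂ)) ∂μ) (hyperfilter ℕ)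
          (𝓝 (∫ x in Q, ∑ j ∈ s, u j * R j.1 j.2 c x ∂μ)) := by
        have e1 : ∀ i, ∫ x in Q, θ i x * ((∑ n ∈ Finset.Icc 1 (N i x),
            y n x * z n x) / (N i x : ℂ)) ∂μ =
            ∑ j ∈ s, u j * ∫ x in Q, ph T f g w (N i) (θ i) j.1 j.2 c x ∂μ := by
          intro i
          have e2 : (fun x => θ i x * ((∑ n ∈ Finset.Icc 1 (N i x),
            y n x * z n x) / (N i x : ℂ))) =
              fun x => ∑ j ∈ s, u j * ph T f g w (N i) (θ i) j.1 j.2 c x :=
            funext fun x => (ph_sum T f g w (N i) (θ i) c s u x).symm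
          rw [e2, integral_finsetSum]
          · exact Finset.sum_congr rfl fun j _ => integral_const_mul _ _
          · exact fun j _ => ((ph_int hf hg hf1 hg1 hw.bdd hR i j.1 j.2 c).integrableOn).const_mul _
        have e3 : ∫ x in Q, ∑ j ∈ s, u j * R j.1 j.2 c x ∂μ =
            ∑ j ∈ s, u j * ∫ x in Q, R j.1 j.2 c x ∂μ := by
          rw [integral_finsetSum]
          · exact Finset.sum_congr rfl fun j _ => integral_const_mul _ _
          · exact fun j _ => ((hlim.int j.1 j.2 c).integrableOn).const_mul _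
        rw [e3, funext e1]
        exact tendsto_finsetSum _ fun j _ => (hlim.lim j.1 j.2 c Q hQ).const_mul _
      have hmain := h1 X μ y z (∑ j ∈ s, ‖u j‖ * B) 1 N θ Q hym hzm hyb (fun n x => hg1 _) hR hQ'
        (h2 B w p hw X μ T f hT hf hf1 s u) _ _ hl (h3 B w p hw X μ T f hT hf hf1 s u Q hQ)
      rw [one_pow, one_mul] at hmain
      exact hmain
  -- uniformity in the coefficients
  have huni : ∀ (c : ℕ) (s : Finset (ℕ × ℕ)), ∀ᵐ x ∂μ, ∀ u : ℕ × ℕ → ℂ,
      ‖∑ i ∈ s, u i * R i.1 i.2 c x‖ ^ 2 ≤ (∑ i ∈ s, ∑ j ∈ s, u i * conj (u j) *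
        p ((i.1 : ℤ) - j.1) * cf μ T f i.2 j.2 x).re := by
    intro c s
    have key := h5 X μ s (fun x u => ‖∑ i : s, u i * R i.1.1 i.1.2 c x‖ ^ 2)
      (fun x u => (∑ i : s, ∑ j : s, u i * conj (u j) *
        p ((i.1.1 : ℤ) - j.1.1) * cf μ T f i.1.2 j.1.2 x).re) (fun x => by fun_prop)
      (fun x => by fun_prop) ?_
    · filter_upwards [key] with x hx u
      have h7 := hx fun i => u i.1
      have e1 : ∑ i : s, u i.1 * R i.1.1 i.1.2 c x = ∑ i ∈ s, u i * R i.1 i.2 c x :=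
        Finset.sum_coe_sort s fun i => u i * R i.1 i.2 c x
      have e2 : (∑ i : s, ∑ j : s, u i.1 * conj (u j.1) *
          p ((i.1.1 : ℤ) - j.1.1) * cf μ T f i.1.2 j.1.2 x) = ∑ i ∈ s, ∑ j ∈ s,
            u i * conj (u j) * p ((i.1 : ℤ) - j.1) * cf μ T f i.2 j.2 x := by
        rw [← Finset.sum_coe_sort s fun i => ∑ j ∈ s,
            u i * conj (u j) * p ((i.1 : ℤ) - j.1) * cf μ T f i.2 j.2 x]
        refine Finset.sum_congr rfl fun i _ => ?_
        exact Finset.sum_coe_sort s fun j =>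
          u i.1 * conj (u j) * p ((i.1.1 : ℤ) - j.1) * cf μ T f i.1.2 j.2 x
      rw [e1, e2] at h7
      exact h7
    · intro u
      classical
      have h8 := hone c s fun i => if h : i ∈ s then u ⟨i, h⟩ else 0
      filter_upwards [h8] with x hx
      have e1 : ∑ i ∈ s, (if h : i ∈ s then u ⟨i, h⟩ else 0) * R i.1 i.2 c x =
          ∑ i : s, u i * R i.1.1 i.1.2 c x := by
        rw [← Finset.sum_coe_sort s]
        exact Finset.sum_congr rfl fun i _ => by rw [dif_pos i.2]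
      have e2 : ∑ i ∈ s, ∑ j ∈ s, (if h : i ∈ s then u ⟨i, h⟩ else 0) *
          conj (if h : j ∈ s then u ⟨j, h⟩ else 0) *
          p ((i.1 : ℤ) - j.1) * cf μ T f i.2 j.2 x = ∑ i : s, ∑ j : s, u i * conj (u j) *
        p ((i.1.1 : ℤ) - j.1.1) * cf μ T f i.1.2 j.1.2 x := by
        rw [← Finset.sum_coe_sort s]
        refine Finset.sum_congr rfl fun i _ => ?_
        rw [← Finset.sum_coe_sort s]
        exact Finset.sum_congr rfl fun j _ => by rw [dif_pos i.2, dif_pos j.2]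
      rw [e1, e2] at hx
      exact hx
  have hall := ae_all_iff.2 fun c : ℕ => ae_all_iff.2 fun s : Finset (ℕ × ℕ) => huni c s
  filter_upwards [hall, h6 X μ T f hT hf hf1] with x hx hx2 c s u
  refine (hx c s u).trans (le_of_eq ?_)
  unfold qf
  congr 1
  refine Finset.sum_congr rfl fun i _ => Finset.sum_congr rfl fun j _ => ?_
  rw [hx2.1 i.2 j.2]

end Pool.Agent.H10.SS
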