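import Pool.Agent.H84.SS.Targets

/-!
# The theorem for the system side (row A_THX)
-/

set_option autoImplicit false

open MeasureTheory Filter Topology Set ProbabilityTheory
open scoped ENNReal ComplexConjugate

universe u v

namespace Pool.Agent.H10.SS

open Pool.Agent.H84.SS
open Pool.Agent.H85.RT (avg GoodWeight Good)
open Pool.Agent.H94.RTB (LGood PD Av)

section tools

variable {X : Type u} [MeasurableSpace X]

theorem spec_smul {μ : Measure X} {T : X → X} {f f' : X → ℂ} {σ : Measure T1} {C : ℝ}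
    (hσ : IsSpec μ T f σ) (hC : 0 < C) (h : ∀ᵐ x ∂μ, ∀ n : ℕ, f (T^[n] x) = C * f' (T^[n] x)) :
    IsSpec μ T f' (ENNReal.ofReal ((C ^ 2)⁻¹) • σ) := by
  have := hσ.1
  refine ⟨Measure.smul_finite σ ENNReal.ofReal_ne_top, fun n => ?_⟩
  have hC0 : (C : ℂ) ≠ 0 := by exact_mod_cast hC.ne'
  rw [integral_smul_measure, ← hσ.2 n, ENNReal.toReal_ofReal (by positivity)]
  have h1 : ∫ x, f (T^[n] x) * conj (f x) ∂μ =
      ∫ x, ((C ^ 2 : ℝ) : ℂ) * (f' (T^[n] x) * conj (f' x)) ∂μ := by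
    refine integral_congr_ae ?_
    filter_upwards [h] with x hx
    have h2 := hx n
    have h3 := hx 0
    simp only [Function.iterate_zero, id_eq] at h3
    rw [h2, h3, map_mul, Complex.conj_ofReal]
    push_cast
    ring
  rw [h1, integral_const_mul, Complex.real_smul]
  push_cast
  field_simp

theorem atoms_smul {σ : Measure T1} {c : ℝ≥0∞} (hc : c ≠ 0) : atoms (c • σ) = atoms σ := by
  ext t
  simp only [atoms, Set.mem_ofPred_eq, Measure.smul_apply, smul_eq_mul, ne_eq, mul_eq_zero, hc,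
    false_or]

theorem sing_neg {σ : Measure T1} (h : σ ⟂ₘ (volume : Measure T1)) :
    σ.map (fun t => -t) ⟂ₘ (volume : Measure T1) := by
  obtain ⟨s, hs, h1, h2⟩ := h
  have hm : Measurable (fun t : T1 => -t) := measurable_neg
  refine ⟨(fun t => -t) ⁻¹' s, hm hs, ?_, ?_⟩
  · rw [Measure.map_apply hm (hm hs)]
    have : (fun t : T1 => -t) ⁻¹' ((fun t : T1 => -t) ⁻¹' s) = s := by
      ext t
      simp
    rw [this]
    exact h1
  · rw [← Set.preimage_compl]
    have h3 := Measure.map_apply (μ := (volume : Measure T1)) hm hs.compl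
    have h4 : Measure.map (fun t : T1 => -t) (volume : Measure T1) = volume :=
      Measure.map_neg_eq_self _
    rw [h4] at h3
    rw [← h3]
    exact h2

theorem spec_symm {μ : Measure X} {T : X ≃ᵐ X} (hT : MeasurePreserving T μ μ) {g : X → ℂ}
    {σ : Measure T1} (hσ : IsSpec μ T g σ) : IsSpec μ T.symm g (σ.map (fun t => -t)) := by
  have := hσ.1
  refine ⟨inferInstance, fun n => ?_⟩
  have hemb : ∀ n : ℕ, MeasurableEmbedding (T^[n]) := by
    intro n
    induction n with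
    | zero => exact MeasurableEmbedding.id
    | succ n ih =>
      rw [Function.iterate_succ]
      exact ih.comp T.measurableEmbedding
  have h1 := (hT.iterate n).integral_comp (hemb n)
    (fun x => g (T.symm^[n] x) * conj (g x))
  have h2 : ∀ x, T.symm^[n] (T^[n] x) = x :=
    (Function.LeftInverse.iterate (fun x => T.symm_apply_apply x) n)
  rw [← h1]
  have h3 : ∫ x, g (T.symm^[n] (T^[n] x)) * conj (g (T^[n] x)) ∂μ =
      ∫ x, conj (g (T^[n] x) * conj (g x)) ∂μ := by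
    refine integral_congr_ae (Eventually.of_forall fun x => ?_)
    simp only
    rw [h2, map_mul, Complex.conj_conj]
    ring
  have h4 : ∫ x, conj (g (T^[n] x) * conj (g x)) ∂μ =
      conj (∫ x, g (T^[n] x) * conj (g x) ∂μ) := integral_conj
  have h5 : conj (∫ t, fourier (n : ℤ) t ∂σ) = ∫ t, conj (fourier (n : ℤ) t) ∂σ :=
    integral_conj.symm
  rw [h3, h4, hσ.2 n, h5]
  have hm : Measurable (fun t : T1 => -t) := measurable_neg
  rw [integral_map hm.aemeasurable (by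
    exact ((fourier (T := 1) (n : ℤ)).continuous).aestronglyMeasurable)]
  refine integral_congr_ae (Eventually.of_forall fun t => ?_)
  simp only
  rw [← fourier_neg]
  simp [fourier_apply]

theorem avg_symm (T : X ≃ᵐ X) (f g : X → ℂ) (w : ℕ → ℂ) (N : ℕ) (x : X) :
    avg T.symm g f w N x = avg T f g w N x := by
  unfold avg
  congr 1
  refine Finset.sum_congr rfl fun n _ => ?_
  have : T.symm.symm = T := rfl
  rw [this, mul_comm (g _) (f _)]

theorem DR_symm {μ : Measure X} {T : X ≃ᵐ X} (h : DR μ T) : DR μ T.symm := by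
  intro f g hf hg hf1 hg1
  filter_upwards [h g f hg hf hg1 hf1] with x hx
  obtain ⟨l, hl⟩ := hx
  refine ⟨l, ?_⟩
  have : (fun N => avg T.symm f g (fun _ => 1) N x) = fun N => avg T g f (fun _ => 1) N x :=
    funext fun N => avg_symm T g f _ N x
  rw [this]
  exact hl

theorem norm_conj_le {z : ℂ} (h : ‖z‖ ≤ 1) : ‖conj z‖ ≤ 1 := by
  rw [RCLike.norm_conj]
  exact h

theorem DRfg_of {μ : Measure X} {T : X ≃ᵐ X} (h : DR μ T) {f g : X → ℂ} (hf : Measurable f)
    (hg : Measurable g) (hf1 : ∀ x, ‖f x‖ ≤ 1) (hg1 : ∀ x, ‖g x‖ ≤ 1) : DRfg μ T f g := by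
  have hc : Measurable (fun z : ℂ => conj z) := Complex.continuous_conj.measurable
  have key : ∀ (S : X ≃ᵐ X) (f : X → ℂ), Measurable f → (∀ x, ‖f x‖ ≤ 1) → ∀ b b' : ℕ,
      Measurable (fp S f b b') ∧ ∀ x, ‖fp S f b b' x‖ ≤ 1 := by
    intro S f hf hf1 b b'
    refine ⟨(hf.comp (S.measurable.iterate b)).mul
      (hc.comp (hf.comp (S.measurable.iterate b'))), fun x => ?_⟩
    unfold fp
    rw [norm_mul]
    exact mul_le_one₀ (hf1 _) (norm_nonneg _) (norm_conj_le (hf1 _))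
  intro b b' c c'
  obtain ⟨a1, a2⟩ := key T f hf hf1 b b'
  obtain ⟨a3, a4⟩ := key T.symm g hg hg1 c c'
  exact h _ _ a1 a3 a2 a4

theorem avg_meas (T : X ≃ᵐ X) {f g : X → ℂ} (hf : Measurable f) (hg : Measurable g) (w : ℕ → ℂ)
    (N : ℕ) : Measurable (avg T f g w N) := by
  unfold avg
  refine (Finset.measurable_sum _ fun n _ => ?_).div_const _
  exact ((hf.comp (T.measurable.iterate n)).mul (hg.comp (T.symm.measurable.iterate n))).mul_const _

/-- eigenfunctions along orbits -/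
theorem eig_iter {μ : Measure X} {T : X ≃ᵐ X} (hT : MeasurePreserving T μ μ) {φ : X → ℂ} {ζ : ℂ}
    (h : ∀ᵐ x ∂μ, φ (T x) = ζ * φ x) : ∀ᵐ x ∂μ, ∀ n : ℕ, φ (T^[n] x) = ζ ^ n * φ x := by
  have h1 : ∀ n : ℕ, ∀ᵐ x ∂μ, φ (T (T^[n] x)) = ζ * φ (T^[n] x) := fun n =>
    (hT.iterate n).quasiMeasurePreserving.ae h
  filter_upwards [ae_all_iff.2 h1] with x hx n
  induction n with
  | zero => simp
  | succ n ih =>
    rw [Function.iterate_succ_apply', hx n, ih, pow_succ]
    ring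

end tools

/-- bounded functions -/
theorem conv_bdd (h2 : A_ATM.{u}) (h3 : A_SML) (h4 : A_LEG.{u}) (h5 : A_CAU.{u}) (h7 : M_MXF.{u})
    {w : ℕ → ℂ} {p : ℤ → ℂ} (hw : WGood.{u} 1 w p) (hL : LGood.{u} w) (X : Type u)
    [MeasurableSpace X] (μ : Measure X) [IsProbabilityMeasure μ] (T : X ≃ᵐ X) (hT : Ergodic T μ)
    (hDR : DR μ T) (f g : X → ℂ) (hf : Measurable f) (hg : Measurable g) (hf1 : ∀ x, ‖f x‖ ≤ 1)
    (hg1 : ∀ x, ‖g x‖ ≤ 1) (σ : Measure T1) (hσ : σ ⟂ₘ (volume : Measure T1))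
    (hS : IsSpec μ T f σ) : ∀ᵐ x ∂μ, ∃ l : ℂ, Tendsto (fun N => avg T f g w N x) atTop (𝓝 l) := by
  have hmp : MeasurePreserving T μ μ := hT.toMeasurePreserving
  have := hS.1
  refine h5 X μ (fun N => avg T f g w N) (fun N => avg_meas T hf hg w N) fun ε hε => ?_
  obtain ⟨F, hF⟩ := h3 σ (ε ^ 2) (by positivity)
  obtain ⟨φ, hφm, ⟨C, hC⟩, hφe, hq⟩ := h2 X μ T hmp f 1 σ hf hf1 hS F
  set q : X → ℂ := fun x => f x - ∑ t ∈ F, φ t x with hqd
  have hqm : Measurable q := hf.sub (Finset.measurable_sum _ fun t _ => hφm t)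
  set B : ℝ := 1 + F.card * |C| with hB
  have hB0 : 0 < B := by positivity
  have hqb : ∀ x, ‖q x‖ ≤ B := by
    intro x
    refine (norm_sub_le _ _).trans (add_le_add (hf1 x) ?_)
    refine (norm_sum_le _ _).trans ?_
    calc ∑ t ∈ F, ‖φ t x‖ ≤ ∑ _t ∈ F, |C| :=
          Finset.sum_le_sum fun t _ => (hC t x).trans (le_abs_self C)
      _ = F.card * |C| := by rw [Finset.sum_const, nsmul_eq_mul]
  refine ⟨fun N => avg T (fun x => ∑ t ∈ F, φ t x) g w N, fun N => avg T q g w N,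
    fun N => avg_meas T hqm hg w N, ?_, ?_, ?_⟩
  · refine Eventually.of_forall fun x N => ?_
    unfold avg
    rw [← add_div, ← Finset.sum_add_distrib]
    congr 1
    refine Finset.sum_congr rfl fun n _ => ?_
    rw [hqd]
    ring
  · -- the eigenfunctions
    have e1 : ∀ t ∈ F, ∀ᵐ x ∂μ, ∃ l : ℂ,
        Tendsto (fun N => Av T.symm g (fun n => (fourier 1 t : ℂ) ^ n * w n) N x) atTop (𝓝 l) := by
      intro t _
      have h8 : ‖(fourier 1 t : ℂ)‖ = 1 := by
        rw [fourier_apply]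
        exact Circle.norm_coe _
      exact h4 w hL _ h8 X μ T.symm (mp_symm hmp) g hg hg1
    have e2 : ∀ t ∈ F, ∀ᵐ x ∂μ, ∀ n : ℕ, φ t (T^[n] x) = (fourier 1 t : ℂ) ^ n * φ t x :=
      fun t _ => eig_iter hmp (hφe t)
    have e3 := (Filter.eventually_all_finset F).2 e1
    have e4 := (Filter.eventually_all_finset F).2 e2
    filter_upwards [e3, e4] with x hx1 hx2
    choose! l hl using hx1
    refine ⟨∑ t ∈ F, φ t x * l t, ?_⟩
    have e5 : (fun N => avg T (fun x => ∑ t ∈ F, φ t x) g w N x) = fun N => ∑ t ∈ F, φ t x *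
        Av T.symm g (fun n => (fourier 1 t : ℂ) ^ n * w n) N x := by
      funext N
      unfold avg Av
      have e6 : ∑ n ∈ Finset.Icc 1 N, (∑ t ∈ F, φ t (T^[n] x)) * g (T.symm^[n] x) * w n =
          ∑ t ∈ F, φ t x * ∑ n ∈ Finset.Icc 1 N,
            (fourier 1 t : ℂ) ^ n * w n * g (T.symm^[n] x) := by
        simp only [Finset.sum_mul, Finset.mul_sum]
        rw [Finset.sum_comm]
        refine Finset.sum_congr rfl fun t ht => Finset.sum_congr rfl fun n _ => ?_
        rw [hx2 t ht n]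
        ring
      rw [e6, Finset.sum_div]
      exact Finset.sum_congr rfl fun t _ => by ring
    rw [e5]
    exact tendsto_finsetSum _ fun t ht => (hl t ht).const_mul _
  · -- the rest
    intro δ hδ
    set q' : X → ℂ := fun x => (B : ℂ)⁻¹ * q x with hq'
    have hBc : (B : ℂ) ≠ 0 := by exact_mod_cast hB0.ne'
    have hqq : ∀ x, q x = B * q' x := fun x => by
      rw [hq']
      field_simp
    have hq'm : Measurable q' := hqm.const_mul _
    have hq'1 : ∀ x, ‖q' x‖ ≤ 1 := by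
      intro x
      rw [hq', norm_mul, norm_inv, Complex.norm_real, Real.norm_eq_abs, abs_of_pos hB0,
        inv_mul_le_iff₀ hB0, mul_one]
      exact hqb x
    have hsp := spec_smul (f' := q') hq hB0 (Eventually.of_forall fun x n => hqq _)
    have hsing : ENNReal.ofReal ((B ^ 2)⁻¹) • σ.restrict (F : Set T1)ᶜ ⟂ₘ
        (volume : Measure T1) := (hσ.restrict _).smul _
    have hmax := h7 X μ T q' g w p 1 _ hT hq'm hg hq'1 hg1 hw (DRfg_of hDR hq'm hg hq'1 hg1)
      hsp hsing (δ / B) (div_pos hδ hB0)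
    have hne : ENNReal.ofReal ((B ^ 2)⁻¹) ≠ 0 := by
      rw [ne_eq, ENNReal.ofReal_eq_zero, not_le]
      exact inv_pos.2 (pow_pos hB0 2)
    rw [atoms_smul hne, measureReal_ennreal_smul_apply, ENNReal.toReal_ofReal (inv_pos.2 (pow_pos hB0 2)).le,
      one_mul] at hmax
    have hset : {x | ∃ᶠ M in atTop, δ / B < ‖avg T q' g w M x‖} =
        {x | ∃ᶠ N in atTop, δ < ‖avg T q g w N x‖} := by
      ext x
      have e1 : ∀ M, ‖avg T q g w M x‖ = B * ‖avg T q' g w M x‖ := by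
        intro M
        have e2 : avg T q g w M x = B * avg T q' g w M x := by
          unfold avg
          rw [← mul_div_assoc, Finset.mul_sum]
          congr 1
          refine Finset.sum_congr rfl fun n _ => ?_
          rw [hqq]
          ring
        rw [e2, norm_mul, Complex.norm_real, Real.norm_eq_abs, abs_of_pos hB0]
      simp only [Set.mem_ofPred_eq]
      refine Filter.frequently_congr (Eventually.of_forall fun M => ?_)
      rw [e1, div_lt_iff₀ hB0, mul_comm B]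
    rw [hset] at hmax
    have h9 : √((B ^ 2)⁻¹ * (σ.restrict (F : Set T1)ᶜ).real (atoms (σ.restrict (F : Set T1)ᶜ))) ≤
        B⁻¹ * ε := by
      have h10 : (B ^ 2)⁻¹ * (σ.restrict (F : Set T1)ᶜ).real (atoms (σ.restrict (F : Set T1)ᶜ)) ≤
          (B⁻¹ * ε) ^ 2 := by
        rw [mul_pow, inv_pow]
        exact mul_le_mul_of_nonneg_left hF (inv_pos.2 (pow_pos hB0 2)).le
      exact (Real.sqrt_le_sqrt h10).trans
        (le_of_eq (Real.sqrt_sq (mul_nonneg (inv_pos.2 hB0).le hε.le)))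
    have h11 := hmax.trans h9
    have h12 : δ / B * μ.real {x | ∃ᶠ N in atTop, δ < ‖avg T q g w N x‖} =
        B⁻¹ * (δ * μ.real {x | ∃ᶠ N in atTop, δ < ‖avg T q g w N x‖}) := by ring
    rw [h12] at h11
    exact le_of_mul_le_mul_left h11 (inv_pos.2 hB0)

/-- essentially bounded functions, the first function is singular -/
theorem conv_f (h2 : A_ATM.{u}) (h3 : A_SML) (h4 : A_LEG.{u}) (h5 : A_CAU.{u}) (h6 : A_LIX.{u})
    (h7 : M_MXF.{u})
    {w : ℕ → ℂ} {p : ℤ → ℂ} (hw : WGood.{u} 1 w p) (hL : LGood.{u} w) (X : Type u)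
    [MeasurableSpace X] (μ : Measure X) [IsProbabilityMeasure μ] (T : X ≃ᵐ X) (hT : Ergodic T μ)
    (hDR : DR μ T) (f g : X → ℂ) (hf : MemLp f ⊤ μ) (hg : MemLp g ⊤ μ)
    (σ : Measure T1) (hσ : σ ⟂ₘ (volume : Measure T1))
    (hS : IsSpec μ T f σ) : ∀ᵐ x ∂μ, ∃ l : ℂ, Tendsto (fun N => avg T f g w N x) atTop (𝓝 l) := by
  have hmp : MeasurePreserving T μ μ := hT.toMeasurePreserving
  obtain ⟨C, f', hC, hf'm, hf'1, hf'⟩ := h6 X μ T hmp f hf
  obtain ⟨C', g', hC', hg'm, hg'1, hg'⟩ := h6 X μ T hmp g hg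
  have hsp := spec_smul (f' := f') hS hC (by
    filter_upwards [hf'] with x hx n
    exact (hx n).1)
  have hconv := conv_bdd h2 h3 h4 h5 h7 hw hL X μ T hT hDR f' g' hf'm hg'm hf'1 hg'1 _
    (hσ.smul _) hsp
  filter_upwards [hconv, hf', hg'] with x hx hxf hxg
  obtain ⟨l, hl⟩ := hx
  refine ⟨C * C' * l, ?_⟩
  have e1 : (fun N => avg T f g w N x) = fun N => (C : ℂ) * C' * avg T f' g' w N x := by
    funext N
    unfold avg
    rw [← mul_div_assoc, Finset.mul_sum]
    congr 1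
    refine Finset.sum_congr rfl fun n _ => ?_
    rw [(hxf n).1, (hxg n).2]
    ring
  rw [e1]
  exact hl.const_mul _

theorem pf_THX (h1 : A_WGD.{u,v}) (h2 : A_ATM.{u}) (h3 : A_SML) (h4 : A_LEG.{u}) (h5 : A_CAU.{u})
    (h6 : A_LIX.{u}) (h7 : M_MXF.{u}) (h8 : A_SPC.{v}) (h9 : Pool.Agent.H94.RTB.T_RTT.{u,v}) :
    A_THX.{u,v} := by
  intro Ω _ m _ S hS h hm hh
  obtain ⟨σ, hσ⟩ := h8 Ω m S hS.toMeasurePreserving h 1 hm hh
  filter_upwards [h1 Ω m S hS h 1 σ hm hh hσ, h9 Ω m S hS h hm ⟨1, hh⟩] with ω hω1 hω2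
  have hL : LGood.{u} (fun n => h (S^[n] ω)) := by
    intro X _ μ _ T hT F hF hF1
    exact hω2 X μ T hT F hF ⟨1, hF1⟩
  intro X _ μ _ T hT hDR f g hf hg hex
  obtain ⟨τ, hτ, hfg⟩ := hex
  rcases hfg with hfs | hgs
  · exact conv_f h2 h3 h4 h5 h6 h7 hω1 hL X μ T hT hDR f g hf hg τ hτ hfs
  · have hc := conv_f h2 h3 h4 h5 h6 h7 hω1 hL X μ T.symm hT.symm (DR_symm hDR) g f hg hf _
      (sing_neg hτ) (spec_symm hT.toMeasurePreserving hgs)
    filter_upwards [hc] with x hx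
    obtain ⟨l, hl⟩ := hx
    refine ⟨l, ?_⟩
    have : (fun N => avg T f g (fun n => h (S^[n] ω)) N x) =
        fun N => avg T.symm g f (fun n => h (S^[n] ω)) N x :=
      funext fun N => (avg_symm T f g _ N x).symm
    rw [this]
    exact hl

end Pool.Agent.H10.SS
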